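import Pool.Agent.D0H90.SM.Stm2

set_option autoImplicit false

/-! Project SM, module J0. -/

namespace Pool.Agent.D0H70.SM

open MvPolynomial Matrix Pool.Agent.D0H90.SM

universe u

section lin

variable {n d : ℕ} {R : Type u} [CommRing R]

theorem ev_lin (c c' : Cf n d → R) (r : R) (x : Fin n → R) (i : Fin n) :
    ev (fun a => c a + r * c' a) x i = ev c x i + r * ev c' x i := by
  simp only [ev, add_mul, Finset.sum_add_distrib, Finset.mul_sum, mul_assoc]

theorem dmon_smul (m : Ex n d) (x y : Fin n → R) (r : R) :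
    dmon m x (fun l => r * y l) = r * dmon m x y := by
  simp only [dmon, Finset.mul_sum]
  refine Finset.sum_congr rfl fun l _ => ?_
  ring

theorem dmon_add (m : Ex n d) (x y y' : Fin n → R) :
    dmon m x (fun l => y l + y' l) = dmon m x y + dmon m x y' := by
  simp only [dmon, ← Finset.sum_add_distrib]
  refine Finset.sum_congr rfl fun l _ => ?_
  ring

theorem dev_smul (c : Cf n d → R) (x y : Fin n → R) (r : R) (i : Fin n) :
    dev c x (fun l => r * y l) i = r * dev c x y i := by
  simp only [dev, Finset.mul_sum]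
  refine Finset.sum_congr rfl fun m _ => ?_
  rw [dmon_smul]
  ring

theorem dev_add (c : Cf n d → R) (x y y' : Fin n → R) (i : Fin n) :
    dev c x (fun l => y l + y' l) i = dev c x y i + dev c x y' i := by
  simp only [dev, ← Finset.sum_add_distrib]
  refine Finset.sum_congr rfl fun m _ => ?_
  rw [dmon_add]
  ring

theorem mon_bas (m m' : Ex n d) (i : Fin n) (hm : (m.1 i : ℕ) = d) :
    mon m' (bas i : Fin n → R) = if m' = m then 1 else 0 := by
  have hz : ∀ l, l ≠ i → (m.1 l : ℕ) = 0 := by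
    intro l hl
    have h1 := m.2
    rw [← Finset.add_sum_erase _ _ (Finset.mem_univ i), hm] at h1
    have h2 : ∑ x ∈ Finset.univ.erase i, (m.1 x : ℕ) = 0 := by omega
    exact (Finset.sum_eq_zero_iff.1 h2) l (Finset.mem_erase.2 ⟨hl, Finset.mem_univ l⟩)
  split_ifs with h
  · subst h
    unfold mon
    refine Finset.prod_eq_one fun l _ => ?_
    by_cases hl : l = i
    · subst hl
      simp [bas]
    · rw [hz l hl, pow_zero]
  · have h3 : ∃ l, l ≠ i ∧ (m'.1 l : ℕ) ≠ 0 := by
      by_contra h4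
      push Not at h4
      apply h
      have h5 : (m'.1 i : ℕ) = d := by
        have h1 := m'.2
        rw [← Finset.add_sum_erase _ _ (Finset.mem_univ i)] at h1
        have h2 : ∑ x ∈ Finset.univ.erase i, (m'.1 x : ℕ) = 0 :=
          Finset.sum_eq_zero fun x hx => h4 x (Finset.ne_of_mem_erase hx)
        omega
      apply Subtype.ext
      funext l
      apply Fin.ext
      by_cases hl : l = i
      · rw [hl, h5, hm]
      · rw [h4 l hl, hz l hl]
    obtain ⟨l, hl, hl0⟩ := h3
    unfold mon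
    refine Finset.prod_eq_zero (Finset.mem_univ l) ?_
    have hb : (Pi.single i (1 : R) : Fin n → R) l = 0 := Pi.single_eq_of_ne hl 1
    change (Pi.single i (1 : R) : Fin n → R) l ^ (m'.1 l : ℕ) = 0
    rw [hb, zero_pow hl0]

theorem ev_bas (c : Cf n d → R) (m : Ex n d) (i j : Fin n) (hm : (m.1 i : ℕ) = d) :
    ev c (bas i) j = c (j, m) := by
  unfold ev
  rw [Finset.sum_eq_single m]
  · rw [mon_bas m m i hm, if_pos rfl, mul_one]
  · intro m' _ hne
    rw [mon_bas m m' i hm, if_neg hne, mul_zero]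
  · intro h
    exact absurd (Finset.mem_univ m) h

end lin

section dual

variable {n d : ℕ} {k : Type u} [Field k]

/-- the inclusion in the dual numbers -/
noncomputable abbrev il (k : Type u) [Field k] : k →+* DualNumber k := TrivSqZeroExt.inlHom k k

/-- `ε` -/
noncomputable abbrev ep (k : Type u) [Field k] : DualNumber k := DualNumber.eps

theorem ep_sq : ep k * ep k = 0 := DualNumber.eps_mul_eps

theorem il_ext {a b a' b' : k} (h : il k a + ep k * il k b = il k a' + ep k * il k b') :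
    a = a' ∧ b = b' := by
  have h1 := congrArg TrivSqZeroExt.fst h
  have h2 := congrArg TrivSqZeroExt.snd h
  simp at h1 h2
  exact ⟨h1, h2⟩

theorem il_dec (z : DualNumber k) :
    z = il k (TrivSqZeroExt.fst z) + ep k * il k (TrivSqZeroExt.snd z) := by
  apply TrivSqZeroExt.ext
  · simp
  · simp

/-- the point `c + ε v` -/
noncomputable def pt (c v : Cf n d → k) : Cf n d → DualNumber k :=
  fun a => il k (c a) + ep k * il k (v a)

theorem aeval_pt (c v : Cf n d → k) (P : Pol n d k) :
    aeval (pt c v) P = il k (eval c P) + ep k * il k (∑ a, eval c (pderiv a P) * v a) := by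
  induction P using MvPolynomial.induction_on with
  | C r =>
    simp only [pderiv_C, map_zero, zero_mul, Finset.sum_const_zero, mul_zero, add_zero, eval_C,
      aeval_C]
    rfl
  | add p q hp hq =>
    simp only [map_add, hp, hq, add_mul, Finset.sum_add_distrib]
    ring
  | mul_X p b hp =>
    have h1 : ∑ a, eval c (pderiv a (p * X b)) * v a =
        (∑ a, eval c (pderiv a p) * v a) * c b + eval c p * v b := by
      have h2 : ∀ a, eval c (pderiv a (p * X b)) * v a =
          (eval c (pderiv a p) * v a) * c b + (if a = b then eval c p * v a else 0) := by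
        intro a
        rw [Derivation.leibniz, smul_eq_mul, smul_eq_mul, map_add, map_mul, map_mul, eval_X]
        by_cases hab : a = b
        · subst hab
          rw [pderiv_X_self, map_one, if_pos rfl]
          ring
        · rw [pderiv_X_of_ne (Ne.symm hab), map_zero, if_neg hab]
          ring
      rw [Finset.sum_congr rfl fun a _ => h2 a, Finset.sum_add_distrib, ← Finset.sum_mul,
        Finset.sum_ite_eq' Finset.univ b, if_pos (Finset.mem_univ b)]
    rw [h1, map_mul, hp, aeval_X, map_mul, eval_X, map_add, map_mul, map_mul, map_mul]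
    unfold pt
    linear_combination ((il k) (∑ a, (eval c) ((pderiv a) p) * v a) * (il k) (v b)) * (ep_sq (k := k))

/-- `Σ_a (Q ∂_a P - P ∂_a Q)(c) v_a` -/
noncomputable def Df (P Q : Pol n d k) (c v : Cf n d → k) : k :=
  ∑ a, (eval c Q * eval c (pderiv a P) - eval c P * eval c (pderiv a Q)) * v a

theorem Df_eq (P Q : Pol n d k) (c v : Cf n d → k) :
    Df P Q c v = eval c Q * (∑ a, eval c (pderiv a P) * v a) -
      eval c P * (∑ a, eval c (pderiv a Q) * v a) := by
  unfold Df
  rw [Finset.mul_sum, Finset.mul_sum, ← Finset.sum_sub_distrib]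
  refine Finset.sum_congr rfl fun a _ => ?_
  ring

theorem Df_inv [Infinite k] (hI : S_INVK.{u}) (P Q : Pol n d k) (hPQ : Invt P Q) (c v w : Cf n d → k)
    (M M' : Matrix (Fin n) (Fin n) (DualNumber k)) (hM : M * M' = 1)
    (h : conj M M' (pt c v) = pt c w) : Df P Q c v = Df P Q c w := by
  have hS : Semi 0 P Q := by
    intro A A' hA c
    rw [pow_zero, one_mul]
    exact hPQ A A' hA c
  have h1 := hI k n d 0 P Q hS (DualNumber k) M M' hM (pt c v)
  rw [h, pow_zero, one_mul, aeval_pt, aeval_pt, aeval_pt, aeval_pt] at h1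
  have h2 : il k (eval c P * eval c Q) + ep k * il k (eval c P * (∑ a, eval c (pderiv a Q) * w a) +
      (∑ a, eval c (pderiv a P) * v a) * eval c Q) =
      il k (eval c P * eval c Q) + ep k * il k (eval c P * (∑ a, eval c (pderiv a Q) * v a) +
      (∑ a, eval c (pderiv a P) * w a) * eval c Q) := by
    simp only [map_add, map_mul]
    linear_combination h1 - ((il k) (∑ a, (eval c) ((pderiv a) P) * v a) *
      (il k) (∑ a, (eval c) ((pderiv a) Q) * w a)) * (ep_sq (k := k)) +
      ((il k) (∑ a, (eval c) ((pderiv a) P) * w a) *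
      (il k) (∑ a, (eval c) ((pderiv a) Q) * v a)) * (ep_sq (k := k))
  have h3 := (il_ext h2).2
  rw [Df_eq, Df_eq]
  linear_combination h3

theorem pt_zero (c : Cf n d → k) : pt c 0 = fun a => il k (c a) := by
  funext a
  unfold pt
  rw [Pi.zero_apply, map_zero, mul_zero, add_zero]

theorem conj_one [Infinite k] (hB : S_BASE.{u}) (c : Cf n d → k) : conj 1 1 c = c := by
  obtain ⟨h1, h2, -⟩ := hB
  refine h2 k n d _ _ fun x => ?_
  rw [h1, one_mulVec, one_mulVec]

/-- the matrix `1 + r ε B` -/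
noncomputable def mt (B : Matrix (Fin n) (Fin n) k) : Matrix (Fin n) (Fin n) (DualNumber k) :=
  1 + ep k • B.map (il k)

theorem mt_mul (B : Matrix (Fin n) (Fin n) k) : mt B * mt (-B) = 1 := by
  have h : (-B).map (il k) = - B.map (il k) := Matrix.ext fun i j => by
    rw [Matrix.map_apply, Matrix.neg_apply, Matrix.neg_apply, Matrix.map_apply, map_neg]
  unfold mt
  rw [h, smul_neg, add_mul, mul_add, mul_add, one_mul, mul_one, one_mul, mul_neg, smul_mul_smul_comm,
    ep_sq, zero_smul, neg_zero, add_zero]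
  abel

theorem mt_map (B : Matrix (Fin n) (Fin n) k) :
    (mt B).map (TrivSqZeroExt.fstHom k k k).toRingHom = 1 := by
  ext i j
  unfold mt
  simp [Matrix.one_apply, Matrix.map_apply, apply_ite]

theorem mt_mulVec (B : Matrix (Fin n) (Fin n) k) (w : Fin n → DualNumber k) (j : Fin n) :
    (mt B *ᵥ w) j = w j + ep k * ∑ l, il k (B j l) * w l := by
  unfold mt
  rw [add_mulVec, one_mulVec, smul_mulVec, Pi.add_apply, Pi.smul_apply, smul_eq_mul]
  rfl

/-- the values of the tangent vector of the orbit -/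
theorem ev_xi (hB : S_BASE.{u}) (c ξ : Cf n d → k) (B : Matrix (Fin n) (Fin n) k)
    (h : conj (mt B) (mt (-B)) (pt c 0) = pt c ξ) (x : Fin n → k) :
    ev ξ x = dev c x (B *ᵥ x) - B *ᵥ ev c x := by
  obtain ⟨h1, h2, h3, h4, h5, h6, h7, -⟩ := hB
  set X : Fin n → DualNumber k := fun l => il k (x l) with hX
  set y : Fin n → DualNumber k := fun l => ep k * il k ((B *ᵥ x) l) with hy
  have e1 := h1 (DualNumber k) n d (pt c 0) (mt B) (mt (-B)) X
  have e2 : mt B *ᵥ X = X + y := by
    funext j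
    rw [mt_mulVec, Pi.add_apply]
    simp only [hX, hy, mulVec, dotProduct, map_sum, map_mul]
  obtain ⟨hh, -, e3⟩ := h7 (DualNumber k) n d (pt c 0) X y ⊤ (fun _ => trivial) (fun _ => trivial)
    (fun _ => trivial)
  have e4 : ∀ i, ∑ s, ∑ t, y s * y t * hh i s t = 0 := by
    intro i
    refine Finset.sum_eq_zero fun s _ => Finset.sum_eq_zero fun t _ => ?_
    simp only [hy]
    linear_combination ((il k) ((B *ᵥ x) s) * (il k) ((B *ᵥ x) t) * hh i s t) * (ep_sq (k := k))
  have e5 : ∀ (c' : Cf n d → k) (i : Fin n), ev (fun a => il k (c' a)) X i = il k (ev c' x i) := by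
    intro c' i
    exact congrFun (h3 k (DualNumber k) (il k) n d c' x) i
  have e6 : ∀ i, dev (pt c 0) X y i = ep k * il k (dev c x (B *ᵥ x) i) := by
    intro i
    rw [hy, dev_smul, pt_zero]
    rw [congrFun (h4 k (DualNumber k) (il k) n d c x (B *ᵥ x)) i]
  have e7 : ∀ i, ev (pt c 0) (mt B *ᵥ X) i = il k (ev c x i) + ep k * il k (dev c x (B *ᵥ x) i) := by
    intro i
    rw [e2, e3, e4, add_zero, e6, pt_zero, e5]
  funext j
  have e8 := congrFun e1 j
  rw [h, mt_mulVec, e7] at e8
  have e9 : ev (pt c ξ) X j = il k (ev c x j) + ep k * il k (ev ξ x j) := by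
    unfold pt
    rw [ev_lin, e5, e5]
  rw [e9] at e8
  have e10 : ep k * ∑ l, il k ((-B) j l) * ev (pt c 0) (mt B *ᵥ X) l =
      ep k * il k (-(B *ᵥ ev c x) j) := by
    rw [Finset.mul_sum]
    have e11 : ∀ l, ep k * (il k ((-B) j l) * ev (pt c 0) (mt B *ᵥ X) l) =
        ep k * il k (-(B j l * ev c x l)) := by
      intro l
      rw [e7]
      simp only [Matrix.neg_apply, map_neg, map_mul]
      linear_combination (-(il k) (B j l) * (il k) (dev c x (B *ᵥ x) l)) * (ep_sq (k := k))
    rw [Finset.sum_congr rfl fun l _ => e11 l, ← Finset.mul_sum, ← map_sum, Finset.sum_neg_distrib]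
    rfl
  rw [e10, add_assoc, ← mul_add, ← map_add] at e8
  have e12 := (il_ext e8).2
  rw [e12, Pi.sub_apply, sub_eq_add_neg]

/-- the tangent vector of the orbit -/
theorem exists_xi [Infinite k] (hB : S_BASE.{u}) (c : Cf n d → k) (B : Matrix (Fin n) (Fin n) k) :
    ∃ ξ : Cf n d → k, (∀ x, ev ξ x = dev c x (B *ᵥ x) - B *ᵥ ev c x) ∧
      conj (mt B) (mt (-B)) (pt c 0) = pt c ξ := by
  have hB' := hB
  obtain ⟨h1, h2, h3, h4, h5, h6, h7, -⟩ := hB'
  have key : conj (mt B) (mt (-B)) (pt c 0) =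
      pt c (fun a => TrivSqZeroExt.snd (conj (mt B) (mt (-B)) (pt c 0) a)) := by
    funext a
    have e1 := h5 (DualNumber k) k (TrivSqZeroExt.fstHom k k k).toRingHom n d (pt c 0) (mt B) (mt (-B))
    rw [mt_map, mt_map] at e1
    have e2 : (fun a => (TrivSqZeroExt.fstHom k k k).toRingHom (pt c 0 a)) = c := by
      funext a
      rw [pt_zero]
      simp
    rw [e2, conj_one hB] at e1
    have e3 : TrivSqZeroExt.fst (conj (mt B) (mt (-B)) (pt c 0) a) = c a := (congrFun e1 a).symm
    have e4 := il_dec (conj (mt B) (mt (-B)) (pt c 0) a)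
    rw [e3] at e4
    exact e4
  exact ⟨_, fun x => ev_xi hB c _ B key x, key⟩

end dual

section main

variable {n d : ℕ} {k : Type u} [Field k]

theorem Df_rest (P Q : Pol n d k) (c r : Cf n d → k) (hr : ∀ a, (∃ i, (a.2.1 i : ℕ) = d) → r a = 0) :
    Df P Q c r = ∑ ρ : Rest n d, eval c (grad P Q ρ) * r ρ.1 := by
  classical
  unfold Df grad
  have h1 : ∀ ρ : Rest n d, eval c (Q * pderiv ρ.1 P - P * pderiv ρ.1 Q) =
      eval c Q * eval c (pderiv ρ.1 P) - eval c P * eval c (pderiv ρ.1 Q) := by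
    intro ρ
    rw [map_sub, map_mul, map_mul]
  rw [← Fintype.sum_subtype_add_sum_subtype (fun a : Cf n d => ¬ ∃ i, (a.2.1 i : ℕ) = d)
    (fun a => (eval c Q * eval c (pderiv a P) - eval c P * eval c (pderiv a Q)) * r a)]
  have h2 : ∑ a : {a : Cf n d // ¬ ¬ ∃ i, (a.2.1 i : ℕ) = d},
      (eval c Q * eval c (pderiv a.1 P) - eval c P * eval c (pderiv a.1 Q)) * r a.1 = 0 := by
    refine Finset.sum_eq_zero fun a _ => ?_
    rw [hr a.1 (not_not.1 a.2), mul_zero]
  rw [h2, add_zero]
  refine Finset.sum_congr rfl fun ρ _ => ?_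
  rw [h1 ρ]

/-- the map of transversality -/
noncomputable def Lam (c : Cf n d → k) : (Fin n → Fin n → k) →ₗ[k] (Fin n → Fin n → k) where
  toFun B := fun i => dev c (bas i) (Matrix.of B *ᵥ bas i) - Matrix.of B *ᵥ ev c (bas i)
  map_add' B B' := by
    funext i j
    have h1 : (Matrix.of (B + B') : Matrix (Fin n) (Fin n) k) *ᵥ (bas i : Fin n → k) =
        fun l => (Matrix.of B *ᵥ bas i) l + (Matrix.of B' *ᵥ bas i) l := by
      rw [← Matrix.of_add_of, add_mulVec]
      rfl
    have h2 : (Matrix.of (B + B') : Matrix (Fin n) (Fin n) k) *ᵥ ev c (bas i) =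
        Matrix.of B *ᵥ ev c (bas i) + Matrix.of B' *ᵥ ev c (bas i) := by
      rw [← Matrix.of_add_of, add_mulVec]
    simp only [Pi.sub_apply, Pi.add_apply]
    rw [h1, h2, dev_add, Pi.add_apply]
    ring
  map_smul' r B := by
    funext i j
    have h1 : (Matrix.of (r • B) : Matrix (Fin n) (Fin n) k) *ᵥ (bas i : Fin n → k) =
        fun l => r * (Matrix.of B *ᵥ bas i) l := by
      rw [← Matrix.smul_of, smul_mulVec]
      rfl
    have h2 : (Matrix.of (r • B) : Matrix (Fin n) (Fin n) k) *ᵥ ev c (bas i) =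
        r • (Matrix.of B *ᵥ ev c (bas i)) := by
      rw [← Matrix.smul_of, smul_mulVec]
    simp only [Pi.sub_apply, Pi.smul_apply, RingHom.id_apply, smul_eq_mul]
    rw [h1, h2, dev_smul, Pi.smul_apply, smul_eq_mul]
    ring

theorem Lam_surj (c : Cf n d → k) (hT : Transv c) : Function.Surjective (Lam c) := by
  rw [← LinearMap.injective_iff_surjective, ← LinearMap.ker_eq_bot, LinearMap.ker_eq_bot']
  intro B hB
  have h1 : (Matrix.of B : Matrix (Fin n) (Fin n) k) = 0 := by
    refine hT _ fun i => ?_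
    have h2 := congrFun hB i
    exact sub_eq_zero.1 h2
  exact h1

/-- module J0 -/
theorem t_J0 : S_BASE.{u} → S_CODIM.{u} → S_INVK.{u} → S_J0.{u} := by
  intro hB hC hI k _ _ _ n d hn hd c hnd hT A A' hA hFix hns P Q hPQ
  classical
  have hinf : Infinite k := IsAlgClosed.instInfinite
  have hB' := hB
  obtain ⟨h1, h2, h3, h4, h5, h6, h7, -⟩ := hB'
  by_contra hJ
  have hA' : A' * A = 1 := mul_eq_one_comm.1 hA
  have hcA : conj A A' c = c := by
    refine h2 k n d _ _ fun x => ?_
    rw [h1, hFix, Matrix.mulVec_mulVec, hA', one_mulVec]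
  -- (i)
  have hi : ∀ v ρ, Df (P ρ) (Q ρ) c v = Df (P ρ) (Q ρ) c (conj A A' v) := by
    intro v ρ
    refine Df_inv hI _ _ (hPQ ρ) c v _ (A.map (il k)) (A'.map (il k)) ?_ ?_
    · rw [← Matrix.map_mul, hA, Matrix.map_one _ (map_zero _) (map_one _)]
    · have e1 := h6 (DualNumber k) n d (fun a => il k (c a)) (fun a => il k (v a)) (ep k)
        (A.map (il k)) (A'.map (il k))
      have e2 := h5 k (DualNumber k) (il k) n d c A A'
      have e3 := h5 k (DualNumber k) (il k) n d v A A'
      unfold pt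
      rw [e1, e2, e3, hcA]
  -- (ii)
  have hxi : ∀ B : Matrix (Fin n) (Fin n) k, ∃ ξ : Cf n d → k,
      (∀ x, ev ξ x = dev c x (B *ᵥ x) - B *ᵥ ev c x) ∧ ∀ ρ, Df (P ρ) (Q ρ) c ξ = 0 := by
    intro B
    obtain ⟨ξ, e1, e2⟩ := exists_xi hB c B
    refine ⟨ξ, e1, fun ρ => ?_⟩
    rw [← Df_inv hI _ _ (hPQ ρ) c 0 ξ (mt B) (mt (-B)) (mt_mul B) e2]
    unfold Df
    simp
  have hadd : ∀ (v w : Cf n d → k) ρ, Df (P ρ) (Q ρ) c (v - w) = Df (P ρ) (Q ρ) c v - Df (P ρ) (Q ρ) c w := by
    intro v w ρ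
    unfold Df
    rw [← Finset.sum_sub_distrib]
    refine Finset.sum_congr rfl fun a _ => ?_
    rw [Pi.sub_apply, mul_sub]
  have hevsub : ∀ (v w : Cf n d → k) x, ev (v - w) x = ev v x - ev w x := by
    intro v w x
    funext i
    have : v - w = fun a => v a + (-1) * w a := by
      funext a
      rw [Pi.sub_apply]
      ring
    rw [this, ev_lin, Pi.sub_apply]
    ring
  have hall : ∀ v : Cf n d → k, ∃ B : Matrix (Fin n) (Fin n) k, ∀ x : Fin n → k,
      ev v (A *ᵥ x) - A *ᵥ ev v x = A *ᵥ (dev c x (B *ᵥ x) - B *ᵥ ev c x) := by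
    intro v
    obtain ⟨B, hBv⟩ := Lam_surj c hT (fun i => ev (conj A A' v - v) (bas i))
    obtain ⟨ξ, e1, e2⟩ := hxi (Matrix.of B)
    set r : Cf n d → k := conj A A' v - v - ξ with hr
    have er : ∀ i, ev r (bas i) = 0 := by
      intro i
      rw [hr, hevsub, e1]
      have := congrFun hBv i
      have e3 : dev c (bas i) (Matrix.of B *ᵥ bas i) - Matrix.of B *ᵥ ev c (bas i) =
        ev (conj A A' v - v) (bas i) := this
      rw [e3, sub_self]
    have er0 : ∀ a : Cf n d, (∃ i, (a.2.1 i : ℕ) = d) → r a = 0 := by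
      rintro ⟨j, m⟩ ⟨i, hi⟩
      rw [← ev_bas r m i j hi, er, Pi.zero_apply]
    have eD : ∀ ρ, Df (P ρ) (Q ρ) c r = 0 := by
      intro ρ
      rw [hr, hadd, hadd, ← hi, sub_self, e2, sub_self]
    have hdet : (Matrix.of fun ρ ρ' : Rest n d => eval c (grad (P ρ) (Q ρ) ρ')).det ≠ 0 := by
      intro h0
      apply hJ
      unfold Jac
      rw [RingHom.map_det]
      convert h0 using 2
      ext i ρ
      rfl
    have hr0 : (fun ρ : Rest n d => r ρ.1) = 0 := by
      refine Matrix.eq_zero_of_mulVec_eq_zero hdet ?_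
      funext ρ
      rw [Pi.zero_apply, ← eD ρ, Df_rest _ _ _ _ er0]
      rfl
    have hrz : r = 0 := by
      funext a
      by_cases ha : ∃ i, (a.2.1 i : ℕ) = d
      · exact er0 a ha
      · exact congrFun hr0 ⟨a, ha⟩
    refine ⟨Matrix.of B, fun x => ?_⟩
    have e4 : conj A A' v - v = ξ := sub_eq_zero.1 hrz
    rw [← e1, ← e4, hevsub, h1, mulVec_sub, Matrix.mulVec_mulVec, hA, one_mulVec]
  have hfin := hC k n d hn hd c hnd A A' hA hFix hns ⊤ (fun v _ => hall v)
  rw [finrank_top, Module.finrank_fintype_fun_eq_card] at hfin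
  omega

end main

end Pool.Agent.D0H70.SM
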