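import Pool.Agent.D0H70.SM.GenB

set_option autoImplicit false

/-! Project SM, module GEN. -/

namespace Pool.Agent.D0H70.SM

open MvPolynomial Matrix Pool.Agent.D0H90.SM

universe u

section sigma

variable {ι : Type} [Fintype ι] {k κ Ω : Type u} [Field k] [Field κ] [Field Ω] [Algebra κ Ω]

/-- `Σ φ(∂_ρ F) r_ρ` -/
noncomputable def del (φ : MvPolynomial ι k →+* κ) (r : ι → κ) (F : MvPolynomial ι k) : κ :=
  ∑ ρ, φ (pderiv ρ F) * r ρ

theorem exists_sigma [CharZero k] [Algebra.IsAlgebraic κ Ω] (φ : MvPolynomial ι k →+* κ)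
    (hfrac : ∀ t : κ, ∃ a b, φ b ≠ 0 ∧ t * φ b = φ a) (p : MvPolynomial ι k)
    (hp : RingHom.ker φ = Ideal.span {p}) (r : ι → κ) (hr : del φ r p = 0) :
    ∃ σ : Ω →+* DualNumber Ω, (∀ t, TrivSqZeroExt.fst (σ t) = t) ∧
      ∀ F, σ (algebraMap κ Ω (φ F)) = il Ω (algebraMap κ Ω (φ F)) +
        ep Ω * il Ω (algebraMap κ Ω (del φ r F)) := by
  classical
  set j : κ →+* Ω := algebraMap κ Ω with hj
  let τ₀ : MvPolynomial ι k →+* DualNumber Ω :=
    eval₂Hom ((il Ω).comp (j.comp (φ.comp C)))
      (fun ρ => il Ω (j (φ (X ρ))) + ep Ω * il Ω (j (r ρ)))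
  have hτ : ∀ F, τ₀ F = il Ω (j (φ F)) + ep Ω * il Ω (j (del φ r F)) := by
    intro F
    induction F using MvPolynomial.induction_on with
    | C a =>
      have e1 : τ₀ (C a) = il Ω (j (φ (C a))) := eval₂Hom_C _ _ a
      have e2 : del φ r (C a) = 0 := by
        unfold del
        refine Finset.sum_eq_zero fun ρ _ => ?_
        rw [pderiv_C, map_zero, zero_mul]
      rw [e1, e2, map_zero, map_zero, mul_zero, add_zero]
    | add f g hf hg =>
      have e2 : del φ r (f + g) = del φ r f + del φ r g := by
        unfold del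
        rw [← Finset.sum_add_distrib]
        refine Finset.sum_congr rfl fun ρ _ => ?_
        rw [map_add, map_add]
        ring
      rw [map_add, hf, hg, e2]
      simp only [map_add]
      ring
    | mul_X f s hf =>
      have e1 : τ₀ (X s) = il Ω (j (φ (X s))) + ep Ω * il Ω (j (r s)) := eval₂Hom_X' _ _ s
      have e2 : del φ r (f * X s) = del φ r f * φ (X s) + φ f * r s := by
        unfold del
        have h2 : ∀ ρ, φ (pderiv ρ (f * X s)) * r ρ =
            (φ (pderiv ρ f) * r ρ) * φ (X s) + (if ρ = s then φ f * r ρ else 0) := by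
          intro ρ
          rw [Derivation.leibniz, smul_eq_mul, smul_eq_mul, map_add, map_mul, map_mul]
          by_cases hab : ρ = s
          · subst hab
            rw [pderiv_X_self, map_one, if_pos rfl]
            ring
          · rw [pderiv_X_of_ne (Ne.symm hab), map_zero, if_neg hab]
            ring
        rw [Finset.sum_congr rfl fun ρ _ => h2 ρ, Finset.sum_add_distrib, ← Finset.sum_mul,
          Finset.sum_ite_eq' Finset.univ s, if_pos (Finset.mem_univ s)]
      rw [map_mul, hf, e1, e2]
      simp only [map_add, map_mul]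
      linear_combination (il Ω (j (del φ r f)) * il Ω (j (r s))) * (ep_sq (k := Ω))
  have hker : ∀ a, φ a = 0 → τ₀ a = 0 := by
    intro a ha
    have h1 : a ∈ Ideal.span {p} := by
      rw [← hp]
      exact ha
    obtain ⟨q, rfl⟩ := Ideal.mem_span_singleton'.1 h1
    have h2 : φ p = 0 := by
      have : p ∈ RingHom.ker φ := by
        rw [hp]
        exact Ideal.mem_span_singleton_self p
      exact this
    rw [map_mul, hτ p, h2, hr]
    simp
  have hfst : ∀ a, TrivSqZeroExt.fst (τ₀ a) = j (φ a) := by
    intro a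
    rw [hτ]
    simp
  have hunit : ∀ a, φ a ≠ 0 → IsUnit (τ₀ a) := by
    intro a ha
    rw [TrivSqZeroExt.isUnit_iff_isUnit_fst, hfst, isUnit_iff_ne_zero]
    rwa [Ne, map_eq_zero]
  obtain ⟨τ, hτ1⟩ := lift_frac φ hfrac τ₀ hker hunit
  have hchar : CharZero κ := charZero_of_injective_ringHom (f := φ.comp C) (RingHom.injective _)
  have hsep : Algebra.IsSeparable κ Ω := inferInstance
  obtain ⟨σ, hσ1, hσ2⟩ := lift_alg τ (TrivSqZeroExt.fstHom Ω Ω Ω).toRingHom
    (fun x => ⟨il Ω x, by simp⟩) (by
      intro x y hx hy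
      have hx' : TrivSqZeroExt.fst x = 0 := hx
      have hy' : TrivSqZeroExt.fst y = 0 := hy
      apply TrivSqZeroExt.ext
      · rw [TrivSqZeroExt.fst_mul, hx', zero_mul]
        rfl
      · rw [TrivSqZeroExt.snd_mul, hx', hy', zero_smul, MulOpposite.op_zero, zero_smul, add_zero]
        rfl) (by
      intro t
      obtain ⟨a, b, hb, hab⟩ := hfrac t
      have e1 : TrivSqZeroExt.fst (τ t) * j (φ b) = j t * j (φ b) := by
        rw [← map_mul, hab, ← hfst b, ← hfst a, ← hτ1, ← hτ1, ← hab, map_mul, TrivSqZeroExt.fst_mul]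
      have e2 : j (φ b) ≠ 0 := by
        rwa [Ne, map_eq_zero]
      exact mul_right_cancel₀ e2 e1)
  refine ⟨σ, hσ1, fun F => ?_⟩
  rw [hσ2, hτ1, hτ]

end sigma

theorem rest_glue {n d : ℕ} {R : Type u} (c : Cf n d → R) : glue c (rest c) = c := by
  funext a
  unfold glue rest
  split_ifs <;> rfl

theorem hom_glue {n d : ℕ} {R S : Type u} (f : R → S) (c : Cf n d → R) (z : Rest n d → R) :
    (fun a => f (glue c z a)) = glue (fun a => f (c a)) (fun ρ => f (z ρ)) := by
  funext a
  unfold glue
  split_ifs <;> rfl

/-- module GEN -/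
theorem t_GEN : S_BASE.{u} → S_CODIM.{u} → S_NDG.{u} → S_GEN.{u} := by
  intro hB hC hN k _ _ _ n d hn hd c hnd hT p hp hpc κ Ω _ _ _ hcl φ hker hfrac y hy
  classical
  have hΩ : IsAlgClosed Ω := hcl.isAlgClosed
  have halg : Algebra.IsAlgebraic κ Ω := hcl.isAlgebraic
  have hchar : CharZero κ := charZero_of_injective_ringHom (f := φ.comp C) (RingHom.injective _)
  have hcharΩ : CharZero Ω := charZero_of_injective_ringHom (algebraMap κ Ω).injective
  have hinf : Infinite Ω := IsAlgClosed.instInfinite
  set yR : Cf n d → MvPolynomial (Rest n d) k := glue (fun a => C (c a)) X with hyR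
  set ev₀ : MvPolynomial (Rest n d) k →+* k := eval (rest c) with hev
  have hev0 : (fun a => ev₀ (yR a)) = c := by
    rw [hyR, hom_glue]
    have e1 : (fun a => ev₀ (C (c a))) = c := by
      funext a
      exact eval_C (c a)
    have e2 : (fun ρ => ev₀ (X ρ)) = rest c := by
      funext ρ
      exact eval_X ρ
    rw [e1, e2, rest_glue]
  have hφ0 : ∀ a, φ a = 0 → ev₀ a = 0 := by
    intro a ha
    have h1 : a ∈ Ideal.span {p} := by
      rw [← hker]
      exact ha
    obtain ⟨q, rfl⟩ := Ideal.mem_span_singleton'.1 h1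
    rw [map_mul, hpc, mul_zero]
  -- nondegenerate
  have hnon : Nondeg y := by
    have hprime : (RingHom.ker ev₀).IsPrime := RingHom.ker_isPrime ev₀
    let O := Localization.AtPrime (RingHom.ker ev₀)
    have hu1 : ∀ b : (RingHom.ker ev₀).primeCompl, IsUnit (ev₀ b) := by
      intro b
      rw [isUnit_iff_ne_zero]
      exact b.2
    have hu2 : ∀ b : (RingHom.ker ev₀).primeCompl, IsUnit (φ b) := by
      intro b
      rw [isUnit_iff_ne_zero]
      exact fun h => b.2 (hφ0 _ h)
    let π : O →+* k := IsLocalization.lift hu1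
    let ψ : O →+* κ := IsLocalization.lift hu2
    have hπ : ∀ a, π (algebraMap (MvPolynomial (Rest n d) k) O a) = ev₀ a := fun a => IsLocalization.lift_eq hu1 a
    have hψ : ∀ a, ψ (algebraMap (MvPolynomial (Rest n d) k) O a) = φ a := fun a => IsLocalization.lift_eq hu2 a
    have hstr : Strong (fun a => algebraMap (MvPolynomial (Rest n d) k) O (yR a)) := by
      refine hN O k π (fun x => ⟨algebraMap (MvPolynomial (Rest n d) k) O (C x), ?_⟩) n d _ ?_
      · rw [hπ]
        exact eval_C x
      · have : (fun a => π (algebraMap (MvPolynomial (Rest n d) k) O (yR a))) = c := by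
          rw [← hev0]
          funext a
          exact hπ _
        rw [this]
        exact hnd
    have h1 := nondeg_of_strong hB ((algebraMap κ Ω).comp ψ) _ hstr
    have h2 : (fun a => ((algebraMap κ Ω).comp ψ) (algebraMap (MvPolynomial (Rest n d) k) O (yR a))) = y := by
      rw [hy]
      funext a
      rw [RingHom.comp_apply, hψ]
    rw [h2] at h1
    exact h1
  -- transversal
  have htra : Transv y := by
    rw [transv_iff]
    have e1 : ev₀ (TM yR).det = (TM c).det := by
      rw [RingHom.map_det]
      congr 1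
      rw [← hev0, TM_map hB ev₀ yR]
      rfl
    have e2 : ((algebraMap κ Ω).comp φ) (TM yR).det = (TM y).det := by
      rw [RingHom.map_det]
      congr 1
      have := TM_map hB ((algebraMap κ Ω).comp φ) yR
      rw [hy]
      exact this.symm
    rw [← e2]
    intro h0
    rw [RingHom.comp_apply, map_eq_zero] at h0
    have h1 := hφ0 _ h0
    rw [e1] at h1
    exact (transv_iff c).1 hT h1
  refine ⟨hnon, htra, fun A A' hA hF => ?_⟩
  by_contra hns
  -- the space of the tuples with the condition of CODIM
  let W : Submodule Ω (Cf n d → Ω) :=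
    { carrier := {v | Cond A y v}
      add_mem' := by
        rintro v w ⟨B, h1⟩ ⟨B', h2⟩
        refine ⟨B + B', fun x => ?_⟩
        have e1 : ∀ x, ev (v + w) x = ev v x + ev w x := by
          intro x
          funext i
          have : v + w = fun a => v a + 1 * w a := by
            funext a
            rw [Pi.add_apply, one_mul]
          rw [this, ev_lin, one_mul, Pi.add_apply]
        have e2 : dev y x ((B + B') *ᵥ x) = dev y x (B *ᵥ x) + dev y x (B' *ᵥ x) := by
          have : (B + B') *ᵥ x = fun l => (B *ᵥ x) l + (B' *ᵥ x) l := by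
            rw [add_mulVec]
            rfl
          funext i
          rw [this, dev_add, Pi.add_apply]
        have e3 := h1 x
        have e4 := h2 x
        rw [e1, e1, e2, add_mulVec, mulVec_add]
        have e5 : dev y x (B *ᵥ x) + dev y x (B' *ᵥ x) - (B *ᵥ ev y x + B' *ᵥ ev y x) =
            (dev y x (B *ᵥ x) - B *ᵥ ev y x) + (dev y x (B' *ᵥ x) - B' *ᵥ ev y x) := by abel
        rw [e5, mulVec_add, ← e3, ← e4]
        abel
      zero_mem' := by
        refine ⟨0, fun x => ?_⟩
        have e1 : ∀ x, ev (0 : Cf n d → Ω) x = 0 := by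
          intro x
          funext i
          simp [ev]
        have e2 : dev y x 0 = 0 := by
          have := dev_smul y x x 0
          funext i
          have h3 := this i
          rw [zero_mul] at h3
          rw [Pi.zero_apply, ← h3]
          congr 1
          funext l
          rw [Pi.zero_apply, zero_mul]
        rw [e1, e1, zero_mulVec, zero_mulVec, e2]
        simp
      smul_mem' := by
        rintro t v ⟨B, h1⟩
        refine ⟨t • B, fun x => ?_⟩
        have e1 : ∀ x, ev (t • v) x = t • ev v x := by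
          intro x
          funext i
          simp only [ev, Pi.smul_apply, smul_eq_mul, Finset.mul_sum, mul_assoc]
        have e2 : dev y x ((t • B) *ᵥ x) = t • dev y x (B *ᵥ x) := by
          have : (t • B) *ᵥ x = fun l => t * (B *ᵥ x) l := by
            rw [smul_mulVec]
            rfl
          funext i
          rw [this, dev_smul, Pi.smul_apply, smul_eq_mul]
        have e3 := h1 x
        rw [e1, e1, e2, smul_mulVec, ← smul_sub, mulVec_smul, mulVec_smul, ← smul_sub, e3] }
  have hWm : ∀ v, v ∈ W ↔ Cond A y v := fun v => Iff.rfl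
  have hxi : ∀ v : Cf n d → Ω, ∃ ξ ∈ W, ∀ a : Cf n d, (∃ i, (a.2.1 i : ℕ) = d) → (v - ξ) a = 0 := by
    intro v
    obtain ⟨B, hBv⟩ := Lam_surj y htra (fun i => ev v (bas i))
    obtain ⟨ξ, e1, -⟩ := exists_xi hB y (Matrix.of B)
    refine ⟨ξ, xi_mem hB y A A' hA hF ξ (Matrix.of B) e1, ?_⟩
    rintro ⟨j, m⟩ ⟨i, hi⟩
    have e2 : ev ξ (bas i) = ev v (bas i) := by
      rw [e1]
      exact congrFun hBv i
    have e3 := congrFun e2 j
    rw [ev_bas ξ m i j hi, ev_bas v m i j hi] at e3
    rw [Pi.sub_apply, e3, sub_self]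
  -- rational tangent vectors
  have hrat : ∀ r : Rest n d → κ, del φ r p = 0 →
      (fun a => if h : ∃ i, (a.2.1 i : ℕ) = d then (0 : Ω) else algebraMap κ Ω (r ⟨a, h⟩)) ∈ W := by
    intro r hr
    obtain ⟨σ, hσ1, hσ2⟩ := exists_sigma (Ω := Ω) φ hfrac p hker r hr
    rw [hWm]
    refine deriv_mem hB σ hσ1 y _ ?_ A A' hA hF
    funext a
    unfold pt
    rw [hy]
    simp only
    rw [hσ2]
    congr 2
    by_cases h : ∃ i, (a.2.1 i : ℕ) = d
    · rw [dif_pos h]
      have e1 : yR a = C (c a) := by
        rw [hyR]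
        unfold glue
        rw [dif_pos h]
      rw [e1]
      unfold del
      rw [Finset.sum_eq_zero fun ρ _ => by rw [pderiv_C, map_zero, zero_mul], map_zero]
    · rw [dif_neg h]
      have e1 : yR a = X ⟨a, h⟩ := by
        rw [hyR]
        unfold glue
        rw [dif_neg h]
      rw [e1]
      unfold del
      rw [Finset.sum_eq_single (⟨a, h⟩ : Rest n d)]
      · rw [pderiv_X_self, map_one, one_mul]
      · intro ρ _ hρ
        rw [pderiv_X_of_ne hρ.symm, map_zero, zero_mul]
      · intro h'
        exact absurd (Finset.mem_univ _) h'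
  have hfin : Fintype.card (Cf n d) ≤ Module.finrank Ω W + 1 := by
    by_cases h0 : ∀ ρ : Rest n d, φ (pderiv ρ p) = 0
    · refine count W hxi 0 0 fun ρ => ?_
      rw [smul_zero, sub_zero]
      have h1 := hrat (Pi.single ρ 1) (by
        unfold del
        exact Finset.sum_eq_zero fun ρ' _ => by rw [h0, zero_mul])
      convert h1 using 1
      funext a
      by_cases h : ∃ i, (a.2.1 i : ℕ) = d
      · have hne : a ≠ ρ.1 := by
          rintro rfl
          exact ρ.2 h
        rw [dif_pos h, Pi.single_eq_of_ne hne]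
      · rw [dif_neg h]
        by_cases ha : a = ρ.1
        · subst ha
          rw [Pi.single_eq_same, Pi.single_eq_same, map_one]
        · have ha' : (⟨a, h⟩ : Rest n d) ≠ ρ := fun h' => ha (congrArg Subtype.val h')
          rw [Pi.single_eq_of_ne ha, Pi.single_eq_of_ne ha', map_zero]
    · push Not at h0
      obtain ⟨s, hs⟩ := h0
      refine count W hxi (Pi.single s.1 1)
        (fun ρ => algebraMap κ Ω (φ (pderiv ρ p) / φ (pderiv s p))) fun ρ => ?_
      have h1 := hrat (Pi.single ρ 1 - (φ (pderiv ρ p) / φ (pderiv s p)) • Pi.single s 1) (by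
        unfold del
        simp only [Pi.sub_apply, Pi.smul_apply, smul_eq_mul, mul_sub, Finset.sum_sub_distrib]
        rw [Finset.sum_eq_single ρ, Finset.sum_eq_single s]
        · rw [Pi.single_eq_same, Pi.single_eq_same]
          field_simp
          ring
        · intro b _ hb
          rw [Pi.single_eq_of_ne hb]
          ring
        · intro h'
          exact absurd (Finset.mem_univ _) h'
        · intro b _ hb
          rw [Pi.single_eq_of_ne hb]
          ring
        · intro h'
          exact absurd (Finset.mem_univ _) h')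
      convert h1 using 1
      funext a
      simp only [Pi.sub_apply, Pi.smul_apply, smul_eq_mul, map_sub, map_mul]
      by_cases h : ∃ i, (a.2.1 i : ℕ) = d
      · have hne : a ≠ ρ.1 := by
          rintro rfl
          exact ρ.2 h
        have hne' : a ≠ s.1 := by
          rintro rfl
          exact s.2 h
        rw [dif_pos h, Pi.single_eq_of_ne hne, Pi.single_eq_of_ne hne', mul_zero, sub_zero]
      · rw [dif_neg h]
        have key : ∀ τ : Rest n d, (Pi.single τ.1 (1 : Ω) : Cf n d → Ω) a =
            algebraMap κ Ω ((Pi.single τ (1 : κ) : Rest n d → κ) ⟨a, h⟩) := by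
          intro τ
          by_cases ha : a = τ.1
          · subst ha
            rw [Pi.single_eq_same, Pi.single_eq_same, map_one]
          · have ha' : (⟨a, h⟩ : Rest n d) ≠ τ := fun h' => ha (congrArg Subtype.val h')
            rw [Pi.single_eq_of_ne ha, Pi.single_eq_of_ne ha', map_zero]
        rw [key ρ, key s]
  have hcod := hC Ω n d hn hd y hnon A A' hA hF hns W (fun v hv => hv)
  omega

end Pool.Agent.D0H70.SM
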