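import Pool.Agent.D0H70.SM.J0

set_option autoImplicit false

/-! Project SM, module GEN, part A: lifting of homomorphisms, transversality as a determinant. -/

namespace Pool.Agent.D0H70.SM

open MvPolynomial Matrix Pool.Agent.D0H90.SM

universe u

theorem lift_alg {κ Ω T : Type u} [Field κ] [Field Ω] [Algebra κ Ω] [Algebra.IsSeparable κ Ω]
    [CommRing T] (τ : κ →+* T) (π : T →+* Ω) (hπ : Function.Surjective π)
    (hnil : ∀ x y, π x = 0 → π y = 0 → x * y = 0) (hc : ∀ t, π (τ t) = algebraMap κ Ω t) :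
    ∃ σ : Ω →+* T, (∀ x, π (σ x) = x) ∧ ∀ t, σ (algebraMap κ Ω t) = τ t := by
  let : Algebra κ T := τ.toAlgebra
  let g : T →ₐ[κ] Ω := { π with commutes' := hc }
  have het : Algebra.FormallyEtale κ Ω := Algebra.FormallyEtale.of_isSeparable κ Ω
  have hsm : Algebra.FormallySmooth κ Ω := inferInstance
  have hn : IsNilpotent (RingHom.ker (g : T →+* Ω)) := by
    refine ⟨2, ?_⟩
    rw [pow_two, Ideal.zero_eq_bot, eq_bot_iff, Ideal.mul_le]
    intro x hx y hy
    rw [Ideal.mem_bot]
    exact hnil x y hx hy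
  let σ := Algebra.FormallySmooth.liftOfSurjective (AlgHom.id κ Ω) g hπ hn
  refine ⟨σ.toRingHom, fun x => ?_, fun t => ?_⟩
  · exact Algebra.FormallySmooth.liftOfSurjective_apply (AlgHom.id κ Ω) g hπ hn x
  · exact σ.commutes t

theorem lift_frac {R κ T : Type u} [CommRing R] [Field κ] [CommRing T] (φ : R →+* κ)
    (hfrac : ∀ t : κ, ∃ a b, φ b ≠ 0 ∧ t * φ b = φ a) (τ₀ : R →+* T)
    (hker : ∀ a, φ a = 0 → τ₀ a = 0) (hunit : ∀ a, φ a ≠ 0 → IsUnit (τ₀ a)) :
    ∃ τ : κ →+* T, ∀ a, τ (φ a) = τ₀ a := by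
  let : Algebra (R ⧸ RingHom.ker φ) κ := (RingHom.kerLift φ).toAlgebra
  have hmk : ∀ a : R, algebraMap (R ⧸ RingHom.ker φ) κ (Ideal.Quotient.mk _ a) = φ a :=
    fun a => RingHom.kerLift_mk φ a
  have : FaithfulSMul (R ⧸ RingHom.ker φ) κ :=
    (faithfulSMul_iff_algebraMap_injective (R ⧸ RingHom.ker φ) κ).2 (RingHom.kerLift_injective φ)
  have hfr : IsFractionRing (R ⧸ RingHom.ker φ) κ := by
    refine IsFractionRing.of_field _ _ fun t => ?_
    obtain ⟨a, b, hb, hab⟩ := hfrac t
    refine ⟨Ideal.Quotient.mk _ a, Ideal.Quotient.mk _ b, ?_⟩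
    rw [hmk, hmk, eq_div_iff hb, hab]
  have hnt : Nontrivial (R ⧸ RingHom.ker φ) := RingHom.domain_nontrivial (RingHom.kerLift φ)
  let g : (R ⧸ RingHom.ker φ) →+* T := Ideal.Quotient.lift (RingHom.ker φ) τ₀ hker
  have hgm : ∀ a : R, g (Ideal.Quotient.mk _ a) = τ₀ a := fun a => rfl
  have hg : ∀ y : nonZeroDivisors (R ⧸ RingHom.ker φ), IsUnit (g y) := by
    rintro ⟨y, hy⟩
    obtain ⟨b, rfl⟩ := Ideal.Quotient.mk_surjective y
    change IsUnit (g (Ideal.Quotient.mk _ b))
    rw [hgm]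
    refine hunit b fun h0 => ?_
    apply nonZeroDivisors.ne_zero hy
    rw [Ideal.Quotient.eq_zero_iff_mem]
    exact h0
  refine ⟨IsLocalization.lift hg, fun a => ?_⟩
  rw [← hmk, IsLocalization.lift_eq hg, hgm]

section trans

variable {n d : ℕ} {R : Type u} [CommRing R]

theorem bas_self (i : Fin n) : (bas i : Fin n → R) i = 1 := by
  change (Pi.single i (1 : R) : Fin n → R) i = 1
  exact Pi.single_eq_same i 1

theorem bas_ne {i l : Fin n} (h : l ≠ i) : (bas i : Fin n → R) l = 0 := by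
  change (Pi.single i (1 : R) : Fin n → R) l = 0
  exact Pi.single_eq_of_ne h 1

theorem mulVec_bas (B : Matrix (Fin n) (Fin n) R) (i s : Fin n) : (B *ᵥ bas i) s = B s i := by
  change (B *ᵥ Pi.single i (1 : R)) s = B s i
  rw [Matrix.mulVec_single_one]
  rfl

theorem dmon_exp (m : Ex n d) (x w : Fin n → R) :
    dmon m x w = ∑ s, w s * dmon m x (bas s) := by
  unfold dmon
  refine Finset.sum_congr rfl fun s _ => ?_
  rw [Finset.sum_eq_single s]
  · rw [bas_self]
    ring
  · intro l _ hl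
    rw [bas_ne hl]
    ring
  · intro h
    exact absurd (Finset.mem_univ s) h

theorem dev_exp (c : Cf n d → R) (x w : Fin n → R) (j : Fin n) :
    dev c x w j = ∑ s, w s * dev c x (bas s) j := by
  unfold dev
  simp_rw [Finset.mul_sum]
  rw [Finset.sum_comm]
  refine Finset.sum_congr rfl fun m _ => ?_
  rw [dmon_exp m x w, Finset.mul_sum]
  refine Finset.sum_congr rfl fun s _ => ?_
  ring

/-- the matrix of the map of `Transv` -/
noncomputable def TM (c : Cf n d → R) : Matrix (Fin n × Fin n) (Fin n × Fin n) R :=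
  Matrix.of fun p q => (if q.2 = p.1 then dev c (bas p.1) (bas q.1) p.2 else 0) -
    (if q.1 = p.2 then ev c (bas p.1) q.2 else 0)

theorem TM_mulVec (c : Cf n d → R) (B : Matrix (Fin n) (Fin n) R) (p : Fin n × Fin n) :
    (TM c *ᵥ fun q => B q.1 q.2) p =
      dev c (bas p.1) (B *ᵥ bas p.1) p.2 - (B *ᵥ ev c (bas p.1)) p.2 := by
  have h1 : (TM c *ᵥ fun q => B q.1 q.2) p =
      ∑ q : Fin n × Fin n, ((if q.2 = p.1 then dev c (bas p.1) (bas q.1) p.2 * B q.1 q.2 else 0) -
    (if q.1 = p.2 then ev c (bas p.1) q.2 * B q.1 q.2 else 0)) := by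
    unfold mulVec dotProduct TM
    refine Finset.sum_congr rfl fun q _ => ?_
    change ((if q.2 = p.1 then dev c (bas p.1) (bas q.1) p.2 else 0) -
      (if q.1 = p.2 then ev c (bas p.1) q.2 else 0)) * B q.1 q.2 = _
    rw [sub_mul, ite_mul, ite_mul, zero_mul]
  rw [h1, Finset.sum_sub_distrib, Fintype.sum_prod_type, Fintype.sum_prod_type]
  congr 1
  · rw [dev_exp]
    refine Finset.sum_congr rfl fun s _ => ?_
    rw [Finset.sum_ite_eq', if_pos (Finset.mem_univ _), mulVec_bas, mul_comm]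
  · rw [Finset.sum_comm]
    unfold mulVec dotProduct
    refine Finset.sum_congr rfl fun t _ => ?_
    rw [Finset.sum_ite_eq', if_pos (Finset.mem_univ _), mul_comm]

theorem TM_map (hB : S_BASE.{u}) {S : Type u} [CommRing S] (φ : R →+* S) (c : Cf n d → R) :
    TM (fun a => φ (c a)) = (TM c).map φ := by
  obtain ⟨-, -, h3, h4, -⟩ := hB
  have hb : ∀ i : Fin n, (bas i : Fin n → S) = fun l => φ ((bas i : Fin n → R) l) := by
    intro i
    funext l
    by_cases hl : l = i
    · subst hl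
      rw [bas_self, bas_self, map_one]
    · rw [bas_ne hl, bas_ne hl, map_zero]
  ext p q
  have e1 := congrFun (h4 R S φ n d c (bas p.1) (bas q.1)) p.2
  have e2 := congrFun (h3 R S φ n d c (bas p.1)) q.2
  simp only [← hb] at e1 e2
  rw [Matrix.map_apply]
  unfold TM
  rw [Matrix.of_apply, Matrix.of_apply, map_sub, e1, e2]
  congr 1
  · split_ifs <;> simp
  · split_ifs <;> simp

end trans

theorem transv_iff {n d : ℕ} {K : Type u} [Field K] (c : Cf n d → K) :
    Transv c ↔ (TM c).det ≠ 0 := by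
  constructor
  · intro h h0
    obtain ⟨v, hv, hv0⟩ := Matrix.exists_mulVec_eq_zero_iff.2 h0
    apply hv
    have h1 : (Matrix.of fun s t => v (s, t) : Matrix (Fin n) (Fin n) K) = 0 := by
      refine h _ fun i => ?_
      funext j
      have h2 := TM_mulVec c (Matrix.of fun s t => v (s, t)) (i, j)
      have h3 : (fun q : Fin n × Fin n => (Matrix.of fun s t => v (s, t) : Matrix (Fin n) (Fin n) K)
        q.1 q.2) = v := rfl
      rw [h3, hv0, Pi.zero_apply] at h2
      exact (sub_eq_zero.1 h2.symm)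
    funext q
    exact congrFun (congrFun h1 q.1) q.2
  · intro h B hB
    have h1 : (fun q : Fin n × Fin n => B q.1 q.2) = 0 := by
      refine Matrix.eq_zero_of_mulVec_eq_zero h ?_
      funext p
      rw [TM_mulVec, Pi.zero_apply]
      have := congrFun (hB p.1) p.2
      rw [this, sub_self]
    ext s t
    exact congrFun h1 (s, t)

theorem nondeg_of_strong (hB : S_BASE.{u}) {n d : ℕ} {O K : Type u} [CommRing O] [Field K]
    (ψ : O →+* K) (c : Cf n d → O) (hc : Strong c) : Nondeg (fun a => ψ (c a)) := by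
  obtain ⟨-, -, h3, -⟩ := hB
  intro x hx
  obtain ⟨M, hM⟩ := hc
  let Φ : MvPolynomial (Fin n) O →+* K := eval₂Hom ψ x
  have h1 : Ideal.span (Set.range (ev (fun b => (C (c b) : MvPolynomial (Fin n) O)) X)) ≤
      RingHom.ker Φ := by
    rw [Ideal.span_le]
    rintro _ ⟨j, rfl⟩
    have e1 := congrFun (h3 (MvPolynomial (Fin n) O) K Φ n d
      (fun b => (C (c b) : MvPolynomial (Fin n) O)) X) j
    have e2 : (fun a => Φ (C (c a))) = fun a => ψ (c a) := by
      funext a
      exact eval₂Hom_C ψ x (c a)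
    have e3 : (fun l => Φ (X l)) = x := by
      funext l
      exact eval₂Hom_X' ψ x l
    rw [e2, e3, hx] at e1
    exact e1.symm
  funext l
  have h2 : Φ (X l ^ M) = 0 := h1 (hM l)
  rw [map_pow] at h2
  have h3 : Φ (X l) = x l := eval₂Hom_X' ψ x l
  rw [h3] at h2
  by_contra h
  exact pow_ne_zero M h h2

end Pool.Agent.D0H70.SM
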