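import Pool.Agent.D0H70.SM.GenA

set_option autoImplicit false

/-! Project SM, module GEN, part B: derivations, the count of dimensions. -/

namespace Pool.Agent.D0H70.SM

open MvPolynomial Matrix Pool.Agent.D0H90.SM

universe u

section fix

variable {n d : ℕ} {K : Type u} [Field K]

theorem dev_lin {R : Type u} [CommRing R] (c c' : Cf n d → R) (r : R) (x z : Fin n → R) (i : Fin n) :
    dev (fun a => c a + r * c' a) x z i = dev c x z i + r * dev c' x z i := by
  simp only [dev, add_mul, Finset.sum_add_distrib, Finset.mul_sum, mul_assoc]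

theorem dev_neg (c : Cf n d → K) (x z : Fin n → K) : dev c x (-z) = -dev c x z := by
  funext i
  have h := dev_smul c x z (-1) i
  have h2 : (fun l => -1 * z l) = -z := by
    funext l
    rw [Pi.neg_apply]
    ring
  rw [h2] at h
  rw [h, Pi.neg_apply]
  ring

theorem conj_fix (hB : S_BASE.{u}) [Infinite K] (y : Cf n d → K) (A A' : Matrix (Fin n) (Fin n) K)
    (hA : A * A' = 1) (hF : Fixes A y) : conj A A' y = y := by
  obtain ⟨h1, h2, -⟩ := hB
  have hA' : A' * A = 1 := mul_eq_one_comm.1 hA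
  refine h2 K n d _ _ fun x => ?_
  rw [h1, hF, Matrix.mulVec_mulVec, hA', one_mulVec]

theorem dev_fix (hB : S_BASE.{u}) [Infinite K] (y : Cf n d → K) (A A' : Matrix (Fin n) (Fin n) K)
    (hA : A * A' = 1) (hF : Fixes A y) (x z : Fin n → K) :
    dev y (A *ᵥ x) (A *ᵥ z) = A *ᵥ dev y x z := by
  have h := conj_fix hB y A A' hA hF
  obtain ⟨-, -, -, -, -, -, -, -, h9⟩ := hB
  have e := h9 K n d y A A' x z
  rw [h] at e
  rw [e, Matrix.mulVec_mulVec, hA, one_mulVec]

/-- the condition of CODIM -/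
def Cond (A : Matrix (Fin n) (Fin n) K) (y v : Cf n d → K) : Prop :=
  ∃ B : Matrix (Fin n) (Fin n) K, ∀ x : Fin n → K,
    ev v (A *ᵥ x) - A *ᵥ ev v x = A *ᵥ (dev y x (B *ᵥ x) - B *ᵥ ev y x)

theorem xi_mem (hB : S_BASE.{u}) [Infinite K] (y : Cf n d → K) (A A' : Matrix (Fin n) (Fin n) K)
    (hA : A * A' = 1) (hF : Fixes A y) (ξ : Cf n d → K) (B : Matrix (Fin n) (Fin n) K)
    (hξ : ∀ x, ev ξ x = dev y x (B *ᵥ x) - B *ᵥ ev y x) : Cond A y ξ := by
  refine ⟨A' * B * A - B, fun x => ?_⟩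
  have e1 : dev y (A *ᵥ x) (B *ᵥ (A *ᵥ x)) = A *ᵥ dev y x ((A' * B * A) *ᵥ x) := by
    rw [← dev_fix hB y A A' hA hF]
    congr 1
    rw [Matrix.mulVec_mulVec, Matrix.mulVec_mulVec, ← mul_assoc, ← mul_assoc, hA, one_mul]
  have e2 : dev y x ((A' * B * A - B) *ᵥ x) = dev y x ((A' * B * A) *ᵥ x) - dev y x (B *ᵥ x) := by
    have e3 : (A' * B * A - B) *ᵥ x = fun l => ((A' * B * A) *ᵥ x) l + (-(B *ᵥ x)) l := by
      rw [sub_mulVec]
      funext l
      rw [Pi.sub_apply, Pi.neg_apply]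
      ring
    funext i
    rw [e3, dev_add, dev_neg, Pi.sub_apply, Pi.neg_apply]
    ring
  rw [hξ, hξ, e1, hF x, e2, sub_mulVec]
  have e4 : B *ᵥ (A *ᵥ ev y x) = A *ᵥ ((A' * B * A) *ᵥ ev y x) := by
    rw [Matrix.mulVec_mulVec, Matrix.mulVec_mulVec, ← mul_assoc, ← mul_assoc, hA, one_mul]
  rw [e4, mulVec_sub, mulVec_sub, mulVec_sub, mulVec_sub]
  abel

theorem deriv_mem (hB : S_BASE.{u}) [Infinite K] (σ : K →+* DualNumber K)
    (hσ : ∀ t, TrivSqZeroExt.fst (σ t) = t)
    (y v : Cf n d → K) (hy : (fun a => σ (y a)) = pt y v) (A A' : Matrix (Fin n) (Fin n) K)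
    (hA : A * A' = 1) (hF : Fixes A y) : Cond A y v := by
  have hfix := conj_fix hB y A A' hA hF
  have hdev := dev_fix hB y A A' hA hF
  obtain ⟨h1, h2, h3, h4, h5, h6, h7, -, -⟩ := hB
  set A1 : Matrix (Fin n) (Fin n) K := A.map (fun t => TrivSqZeroExt.snd (σ t)) with hA1
  have hAs : ∀ i j, (A.map σ) i j = il K (A i j) + ep K * il K (A1 i j) := by
    intro i j
    have := il_dec (σ (A i j))
    rw [hσ] at this
    exact this
  have e1 : conj (A.map σ) (A'.map σ) (pt y v) = pt y v := by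
    have := h5 K (DualNumber K) σ n d y A A'
    rw [hfix, hy] at this
    exact this
  have hAA : A.map σ * A'.map σ = 1 := by
    rw [← Matrix.map_mul, hA, Matrix.map_one _ (map_zero _) (map_one _)]
  refine ⟨-(A' * A1), fun x => ?_⟩
  set X : Fin n → DualNumber K := fun l => il K (x l) with hX
  have e2 : ev (pt y v) (A.map σ *ᵥ X) = A.map σ *ᵥ ev (pt y v) X := by
    have := h1 (DualNumber K) n d (pt y v) (A.map σ) (A'.map σ) X
    rw [e1] at this
    rw [this, Matrix.mulVec_mulVec, hAA, one_mulVec]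
  have e3 : A.map σ *ᵥ X = (fun l => il K ((A *ᵥ x) l)) + fun l => ep K * il K ((A1 *ᵥ x) l) := by
    funext j
    rw [Pi.add_apply]
    simp only [mulVec, dotProduct, map_sum, map_mul, Finset.mul_sum, ← Finset.sum_add_distrib, hX]
    refine Finset.sum_congr rfl fun l _ => ?_
    rw [hAs]
    ring
  have e5 : ∀ (c' : Cf n d → K) (u : Fin n → K) (i : Fin n),
      ev (fun a => il K (c' a)) (fun l => il K (u l)) i = il K (ev c' u i) := by
    intro c' u i
    exact congrFun (h3 K (DualNumber K) (il K) n d c' u) i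
  have e6 : ∀ (c' : Cf n d → K) (u z : Fin n → K) (i : Fin n),
      dev (fun a => il K (c' a)) (fun l => il K (u l)) (fun l => il K (z l)) i = il K (dev c' u z i) := by
    intro c' u z i
    exact congrFun (h4 K (DualNumber K) (il K) n d c' u z) i
  have e7 : ∀ (u : Fin n → K) (i : Fin n), ev (pt y v) (fun l => il K (u l)) i =
      il K (ev y u i) + ep K * il K (ev v u i) := by
    intro u i
    unfold pt
    rw [ev_lin, e5, e5]
  obtain ⟨hh, -, e8⟩ := h7 (DualNumber K) n d (pt y v) (fun l => il K ((A *ᵥ x) l))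
    (fun l => ep K * il K ((A1 *ᵥ x) l)) ⊤ (fun _ => trivial) (fun _ => trivial) (fun _ => trivial)
  have e9 : ∀ i, ∑ s, ∑ t, (fun l => ep K * il K ((A1 *ᵥ x) l)) s *
      (fun l => ep K * il K ((A1 *ᵥ x) l)) t * hh i s t = 0 := by
    intro i
    refine Finset.sum_eq_zero fun s _ => Finset.sum_eq_zero fun t _ => ?_
    simp only
    linear_combination ((il K) ((A1 *ᵥ x) s) * (il K) ((A1 *ᵥ x) t) * hh i s t) * (ep_sq (k := K))
  have e10 : ∀ i, dev (pt y v) (fun l => il K ((A *ᵥ x) l)) (fun l => ep K * il K ((A1 *ᵥ x) l)) i =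
      ep K * il K (dev y (A *ᵥ x) (A1 *ᵥ x) i) := by
    intro i
    rw [dev_smul]
    unfold pt
    rw [dev_lin, e6, e6]
    linear_combination (il K (dev v (A *ᵥ x) (A1 *ᵥ x) i)) * (ep_sq (k := K))
  funext j
  have e11 := congrFun e2 j
  rw [e3, e8, e9, add_zero, e10, e7] at e11
  have e12 : (A.map σ *ᵥ ev (pt y v) X) j = il K ((A *ᵥ ev y x) j) +
      ep K * il K ((A *ᵥ ev v x) j + (A1 *ᵥ ev y x) j) := by
    simp only [mulVec, dotProduct, map_sum, map_mul, Finset.mul_sum, ← Finset.sum_add_distrib, map_add]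
    refine Finset.sum_congr rfl fun l _ => ?_
    rw [hAs, hX, e7]
    linear_combination (il K (A1 j l) * il K (ev v x l)) * (ep_sq (k := K))
  rw [e12, add_assoc, ← mul_add, ← map_add] at e11
  have e13 := (il_ext e11).2
  have e14 : dev y (A *ᵥ x) (A1 *ᵥ x) = A *ᵥ dev y x ((A' * A1) *ᵥ x) := by
    rw [← hdev, Matrix.mulVec_mulVec, ← mul_assoc, hA, one_mul]
  have e15 : A *ᵥ ((A' * A1) *ᵥ ev y x) = A1 *ᵥ ev y x := by
    rw [Matrix.mulVec_mulVec, ← mul_assoc, hA, one_mul]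
  rw [neg_mulVec, neg_mulVec, dev_neg, sub_neg_eq_add, mulVec_add, mulVec_neg, e15, ← e14]
  simp only [Pi.sub_apply, Pi.add_apply, Pi.neg_apply]
  linear_combination e13

theorem count (W : Submodule K (Cf n d → K))
    (hxi : ∀ v : Cf n d → K, ∃ ξ ∈ W, ∀ a : Cf n d, (∃ i, (a.2.1 i : ℕ) = d) → (v - ξ) a = 0)
    (q : Cf n d → K) (b : Rest n d → K)
    (hq : ∀ ρ : Rest n d, (Pi.single ρ.1 (1 : K) : Cf n d → K) - b ρ • q ∈ W) :
    Fintype.card (Cf n d) ≤ Module.finrank K W + 1 := by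
  classical
  have h1 : Module.finrank K ((Cf n d → K) ⧸ W) ≤ 1 := by
    refine finrank_le_one (W.mkQ q) fun w => ?_
    obtain ⟨v, rfl⟩ := W.mkQ_surjective w
    obtain ⟨ξ, hξ, hr⟩ := hxi v
    set r := v - ξ with hrdef
    refine ⟨∑ ρ : Rest n d, r ρ.1 * b ρ, ?_⟩
    have h2 : r = ∑ ρ : Rest n d, r ρ.1 • (Pi.single ρ.1 (1 : K) : Cf n d → K) := by
      funext a
      rw [Finset.sum_apply]
      by_cases ha : ∃ i, (a.2.1 i : ℕ) = d
      · rw [hr a ha]
        symm
        refine Finset.sum_eq_zero fun ρ _ => ?_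
        have hne : a ≠ ρ.1 := by
          rintro rfl
          exact ρ.2 ha
        rw [Pi.smul_apply, Pi.single_eq_of_ne hne, smul_zero]
      · rw [Finset.sum_eq_single (⟨a, ha⟩ : Rest n d)]
        · rw [Pi.smul_apply, Pi.single_eq_same, smul_eq_mul, mul_one]
        · intro ρ _ hρ
          have hne : a ≠ ρ.1 := fun h => hρ (Subtype.ext h.symm)
          rw [Pi.smul_apply, Pi.single_eq_of_ne hne, smul_zero]
        · intro h
          exact absurd (Finset.mem_univ _) h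
    have h3 : W.mkQ v = W.mkQ r := by
      rw [hrdef, map_sub, Submodule.mkQ_apply W ξ, (Submodule.Quotient.mk_eq_zero W).2 hξ, sub_zero]
    have h4 : ∀ ρ : Rest n d, W.mkQ (Pi.single ρ.1 (1 : K)) = b ρ • W.mkQ q := by
      intro ρ
      rw [← sub_eq_zero, ← map_smul, ← map_sub, Submodule.mkQ_apply, Submodule.Quotient.mk_eq_zero]
      exact hq ρ
    rw [h3, h2, map_sum, Finset.sum_smul]
    refine Finset.sum_congr rfl fun ρ _ => ?_
    rw [map_smul, h4, smul_smul, ← h2]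
  have h2 := Submodule.finrank_quotient_add_finrank W
  rw [Module.finrank_fintype_fun_eq_card] at h2
  omega

end fix

end Pool.Agent.D0H70.SM
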